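import Pool.Agent.H2.PD.StmChk

/-!
Subtask of helper2's project for MP_fd4632_co: splitting of sectors (`S_cut`) and the excluded
zone (`S_zone`).
-/

namespace Pool.Agent.H653.PD

open Pool.Agent.H2.PD

theorem anti' (hT : TabOK) (i j : ℕ) (hi : i < 256) (hj : j = (i + 128) % 256) :
    px j = - px i ∧ py j = - py i := by
  rcases Nat.lt_or_ge i 128 with h | h
  · have h1 : j = i + 128 := by omega
    rw [h1]
    exact hT.anti i h
  · have h1 : i = j + 128 := by omega
    have h2 := hT.anti j (by omega)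
    rw [← h1] at h2
    constructor
    · rw [h2.1, neg_neg]
    · rw [h2.2, neg_neg]

theorem InS_of (a w b : ℕ) (x y : ℝ) (ha : a < 256) (hb : b = (a + w) % 256)
    (h1 : 0 ≤ (px a : ℝ) * y - (py a : ℝ) * x) (h2 : 0 ≤ x * (py b : ℝ) - y * (px b : ℝ)) :
    InS (a + 256 * w) x y := by
  right
  have e1 : (a + 256 * w) % 256 = a := by omega
  have e2 : (a + 256 * w) / 256 = w := by omega
  rw [e1, e2, ← hb]
  exact ⟨h1, h2⟩

theorem cut_ok : S_cut := by
  intro hT
  constructor
  · intro c k x y hc hk hkc h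
    rcases h with h | ⟨h1, h2⟩
    · omega
    rcases le_total 0 (x * (py ((c % 256 + k) % 256) : ℝ) - y * (px ((c % 256 + k) % 256) : ℝ))
      with h3 | h3
    · left
      exact InS_of (c % 256) k ((c % 256 + k) % 256) x y (by omega) rfl h1 h3
    · right
      apply InS_of ((c % 256 + k) % 256) (c / 256 - k) ((c % 256 + c / 256) % 256) x y (by omega)
        (by omega) (by linarith) h2
  · intro a w x y ha hw hw'
    obtain ⟨A1, A2⟩ := anti' hT a ((a + 128) % 256) ha rfl
    obtain ⟨B1, B2⟩ := anti' hT ((a + w) % 256) ((a + w + 128) % 256) (by omega) (by omega)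
    have A1' : (px ((a + 128) % 256) : ℝ) = - (px a : ℝ) := by rw [A1]; push_cast; ring
    have A2' : (py ((a + 128) % 256) : ℝ) = - (py a : ℝ) := by rw [A2]; push_cast; ring
    have B1' : (px ((a + w + 128) % 256) : ℝ) = - (px ((a + w) % 256) : ℝ) := by
      rw [B1]; push_cast; ring
    have B2' : (py ((a + w + 128) % 256) : ℝ) = - (py ((a + w) % 256) : ℝ) := by
      rw [B2]; push_cast; ring
    have e0 : a % 256 = a := by omega
    have e1 : (a + 128 + w) % 256 = (a + w + 128) % 256 := by omega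
    rw [e0, e1]
    rcases le_total 0 ((px a : ℝ) * y - (py a : ℝ) * x) with h1 | h1
    · rcases le_total 0 ((px ((a + w) % 256) : ℝ) * y - (py ((a + w) % 256) : ℝ) * x) with h2 | h2
      · right; left
        apply InS_of ((a + w) % 256) (128 - w) ((a + 128) % 256) x y (by omega) (by omega) h2
        rw [A1', A2']
        linarith
      · left
        apply InS_of a w ((a + w) % 256) x y (by omega) rfl h1
        linarith
    · rcases le_total 0 ((px ((a + w) % 256) : ℝ) * y - (py ((a + w) % 256) : ℝ) * x) with h2 | h2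
      · right; right; left
        apply InS_of ((a + 128) % 256) w ((a + w + 128) % 256) x y (by omega) (by omega)
        · rw [A1', A2']
          linarith
        · rw [B1', B2']
          linarith
      · right; right; right
        apply InS_of ((a + w + 128) % 256) (128 - w) a x y (by omega) (by omega)
        · rw [B1', B2']
          linarith
        · linarith

/-- a linear form which is positive at `P` and `Q` is positive at a nonzero vector of the cone -/
theorem cone_pos (p1 p2 q1 q2 x y l1 l2 : ℝ) (hD : 0 < p1 * q2 - p2 * q1)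
    (h1 : 0 ≤ p1 * y - p2 * x) (h2 : 0 ≤ x * q2 - y * q1)
    (hP : 0 < l1 * p1 + l2 * p2) (hQ : 0 < l1 * q1 + l2 * q2) (hne : (x, y) ≠ (0, 0)) :
    0 < l1 * x + l2 * y := by
  have e : (p1 * q2 - p2 * q1) * (l1 * x + l2 * y) =
      (x * q2 - y * q1) * (l1 * p1 + l2 * p2) + (p1 * y - p2 * x) * (l1 * q1 + l2 * q2) := by ring
  have ex : (p1 * q2 - p2 * q1) * x = (x * q2 - y * q1) * p1 + (p1 * y - p2 * x) * q1 := by ring
  have ey : (p1 * q2 - p2 * q1) * y = (x * q2 - y * q1) * p2 + (p1 * y - p2 * x) * q2 := by ring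
  have hpos : 0 < (p1 * q2 - p2 * q1) * (l1 * x + l2 * y) := by
    rcases h1.lt_or_eq with h3 | h3
    · rw [e]
      have := mul_nonneg h2 hP.le
      have := mul_pos h3 hQ
      linarith
    · rcases h2.lt_or_eq with h4 | h4
      · rw [e]
        have := mul_pos h4 hP
        have := mul_nonneg h1 hQ.le
        linarith
      · exfalso
        apply hne
        rw [← h3, ← h4] at ex ey
        simp only [zero_mul, add_zero, mul_eq_zero] at ex ey
        rw [Prod.mk.injEq]
        exact ⟨ex.resolve_left hD.ne', ey.resolve_left hD.ne'⟩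
  exact (mul_pos_iff_of_pos_left hD).1 hpos

theorem zone_aux (a b x y u v : ℝ) (hb : 0 < b) (hba : b < a) (hu : |u| = |x|) (hv : |v| = |y|)
    (h1 : 0 < a * u - b * v) (h2 : 0 < a * v - b * u) :
    max |x| |y| * b < min |x| |y| * a := by
  have hs : 0 < u + v := by
    have h3 : 0 < (a - b) * (u + v) := by nlinarith
    exact (mul_pos_iff_of_pos_left (by linarith)).1 h3
  have hu0 : 0 < u := by
    by_contra h
    push Not at h
    have : 0 < v := by linarith
    nlinarith [mul_pos hb this, mul_nonneg (by linarith : (0:ℝ) ≤ a) (neg_nonneg.2 h)]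
  have hv0 : 0 < v := by
    by_contra h
    push Not at h
    nlinarith [mul_pos hb hu0, mul_nonneg (by linarith : (0:ℝ) ≤ a) (neg_nonneg.2 h)]
  rw [← hu, ← hv, abs_of_pos hu0, abs_of_pos hv0]
  rcases le_total u v with h | h
  · rw [max_eq_right h, min_eq_left h]
    linarith
  · rw [max_eq_left h, min_eq_right h]
    linarith

theorem zone_ok : S_zone := by
  intro hT Z c x y hZ hc hc' hr1 hr2 hg hS hne
  obtain ⟨hZ0, hZ1, hz⟩ := hT.zone Z hZ
  set a := c % 256 with ha
  set w := c / 256 with hw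
  have haw : (a + w) % 256 = a + w := by omega
  have hsec := (hT.sec a (by omega) w (by omega) hg).1
  rcases hS with h | ⟨h1, h2⟩
  · omega
  rw [← ha, ← hw, haw] at h2
  rw [← ha] at h1
  rw [haw] at hsec
  have ea : a = 64 * (a / 64) + c % 64 := by omega
  have eb : a + w = 64 * (a / 64) + (c % 64 + w) := by omega
  obtain ⟨sx, sy, hsx, hsy, hsx', hsy', f1, f2⟩ := hz (a / 64) (by omega) (c % 64) (by omega)
    (by omega)
  obtain ⟨tx, ty, htx, hty, htx', hty', g1, g2⟩ := hz (a / 64) (by omega) (c % 64 + w) (by omega)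
    (by omega)
  rw [← ea] at f1 f2
  rw [← eb] at g1 g2
  have es : tx = sx := by rw [htx', hsx']
  have et : ty = sy := by rw [hty', hsy']
  subst es et
  have F1 : 0 < ((tx : ℝ) * (px Z : ℝ)) * (px a : ℝ) + (-((ty : ℝ) * (py Z : ℝ))) * (py a : ℝ) := by
    have : ((ty * py a * py Z : ℤ) : ℝ) < ((tx * px a * px Z : ℤ) : ℝ) := by exact_mod_cast f1
    push_cast at this
    linarith
  have F2 : 0 < (-((tx : ℝ) * (py Z : ℝ))) * (px a : ℝ) + ((ty : ℝ) * (px Z : ℝ)) * (py a : ℝ) := by
    have : ((tx * px a * py Z : ℤ) : ℝ) < ((ty * py a * px Z : ℤ) : ℝ) := by exact_mod_cast f2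
    push_cast at this
    linarith
  have G1 : 0 < ((tx : ℝ) * (px Z : ℝ)) * (px (a + w) : ℝ) +
      (-((ty : ℝ) * (py Z : ℝ))) * (py (a + w) : ℝ) := by
    have : ((ty * py (a + w) * py Z : ℤ) : ℝ) < ((tx * px (a + w) * px Z : ℤ) : ℝ) := by
      exact_mod_cast g1
    push_cast at this
    linarith
  have G2 : 0 < (-((tx : ℝ) * (py Z : ℝ))) * (px (a + w) : ℝ) +
      ((ty : ℝ) * (px Z : ℝ)) * (py (a + w) : ℝ) := by
    have : ((tx * px (a + w) * py Z : ℤ) : ℝ) < ((ty * py (a + w) * px Z : ℤ) : ℝ) := by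
      exact_mod_cast g2
    push_cast at this
    linarith
  have hD : (0 : ℝ) < (px a : ℝ) * (py (a + w) : ℝ) - (py a : ℝ) * (px (a + w) : ℝ) := by
    have : ((0 : ℤ) : ℝ) < ((px a * py (a + w) - py a * px (a + w) : ℤ) : ℝ) := by
      exact_mod_cast hsec
    push_cast at this
    linarith
  have H1 := cone_pos _ _ _ _ x y _ _ hD h1 h2 F1 G1 hne
  have H2 := cone_pos _ _ _ _ x y _ _ hD h1 h2 F2 G2 hne
  have hb : (0 : ℝ) < (py Z : ℝ) := by exact_mod_cast hZ0
  have hba : (py Z : ℝ) < (px Z : ℝ) := by exact_mod_cast hZ1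
  apply zone_aux (px Z : ℝ) (py Z : ℝ) x y ((tx : ℝ) * x) ((ty : ℝ) * y) hb hba
  · rw [abs_mul]
    have : |(tx : ℝ)| = 1 := by exact_mod_cast htx
    rw [this, one_mul]
  · rw [abs_mul]
    have : |(ty : ℝ)| = 1 := by exact_mod_cast hty
    rw [this, one_mul]
  · linarith
  · linarith

end Pool.Agent.H653.PD
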